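import Pool.Agent.H10.LN.Cont

open MeasureTheory

namespace Pool.Agent.Results.MP_50bf8a_an.LelongNumbers

open Pool.Agent.Helper853

/-- For every n at least 2 the Lelong numbers at the pole of the omega-psh Green functions of
CP^n are exactly the numbers of [0, 1]: no other value occurs, for any pole, and each value of
[0, 1], the value 0 included, is taken by a continuous function to the extended reals whose only
infinity is the pole. Definitions (library module Helper853.GreenDefs): HasMA G mu says that G is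
in DMA(CP^n, omega) with MA(G) = mu; lelong G a is the Lelong number. -/
theorem result : ∀ n : ℕ, 2 ≤ n →
    {ν : ℝ | ∃ (a : CP n) (G : CP n → EReal), HasMA G (Measure.dirac a) ∧ lelong G a = ν} =
      Set.Icc 0 1 ∧
    ∃ a : CP n, ∀ ν ∈ Set.Icc (0 : ℝ) 1, ∃ G : CP n → EReal,
      HasMA G (Measure.dirac a) ∧ lelong G a = ν ∧ Continuous G ∧ ∀ p, G p = ⊥ ↔ p = a := by
  intro n hn
  have key : ∃ a : CP n, ∀ ν ∈ Set.Icc (0 : ℝ) 1, ∃ G : CP n → EReal,
      HasMA G (Measure.dirac a) ∧ lelong G a = ν ∧ Continuous G ∧ ∀ p, G p = ⊥ ↔ p = a := by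
    obtain ⟨m, rfl⟩ : ∃ m, n = m + 2 := ⟨n - 2, by omega⟩
    refine ⟨pole m, ?_⟩
    rintro ν ⟨h0, h1⟩
    rcases h0.eq_or_lt with rfl | h0
    · exact ⟨Zm.Glob.G0 m, Zm.Glob.hasMA_G0, Zm.Glob.lelong_G0, Zm.Glob.continuous_G0.1,
        Zm.Glob.continuous_G0.2⟩
    · exact ⟨GG m ν, hasMA_GG h0 h1, lelong_GG h0 h1, (H10.LN.continuous_GG h0 h1).1,
        (H10.LN.continuous_GG h0 h1).2⟩
  refine ⟨?_, key⟩
  ext ν
  constructor
  · rintro ⟨a, G, hG, rfl⟩
    exact H10.LN.lelong_mem (by omega) hG.1 hG.2.2.1 a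
  · intro hν
    obtain ⟨a, ha⟩ := key
    obtain ⟨G, h1, h2, -⟩ := ha ν hν
    exact ⟨a, G, h1, h2⟩

end Pool.Agent.Results.MP_50bf8a_an.LelongNumbers
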